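import Pool.Agent.Lib.MP_017654_co.Fan

/-!
The polar space `PSU(4, q₀)` (points and lines of the Hermitian surface `H(3, q₀²)`) has a
partition into ovoids, for every prime power `q₀`.
-/

set_option autoImplicit false

namespace Pool.Agent.Results.MP_017654_co.HermitianSurfaceOvoids

open Pool.Agent.Lib.MP_017654_co Module

/-- Let `K` be a field with `q ^ 2` elements and `h` a non-degenerate Hermitian form of Witt index
two on a `K`-vector space of dimension four. Then the point set of its polar space can be
partitioned into ovoids. -/
theorem result {K V : Type*} [Field K] [Fintype K] [AddCommGroup V] [Module K V]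
    (q : ℕ) (hq : Fintype.card K = q ^ 2) (hV : finrank K V = 4)
    (h : V → V → K) (hh : IsHermForm q h) (hW : WittIndex (TotIso h) 2) :
    ∃ P : Set (Set (Submodule K V)), IsOvoidPartition (TotIso h) 2 P := by
  have : FiniteDimensional K V := Module.finite_of_finrank_pos (by omega)
  exact exists_ovoidPartition hq hV hh hW

end Pool.Agent.Results.MP_017654_co.HermitianSurfaceOvoids
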