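import Pool.Agent.Lib.MP_017654_co.Types

/-!
The polar space `PΩ⁺(8, q)`, `q` even, has no partition into ovoids.
-/

set_option autoImplicit false

namespace Pool.Agent.Results.MP_017654_co.NoPartitionOmegaPlus8

open Pool.Agent.Lib.MP_017654_co Module

/-- Let `K` be a finite field of characteristic two and `Q` a non-degenerate quadratic form of Witt
index four on a `K`-vector space of dimension eight. Then the point set of its polar space has no
partition into ovoids. -/
theorem result {K V : Type*} [Field K] [Fintype K] [CharP K 2] [AddCommGroup V] [Module K V]
    (hV : finrank K V = 8) (Q : QuadraticForm K V) (hQ : NonDeg Q)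
    (hW : WittIndex (TotSing Q) 4) :
    ¬ ∃ P : Set (Set (Submodule K V)), IsOvoidPartition (TotSing Q) 4 P :=
  no_partition_plus_eight hV hQ hW

end Pool.Agent.Results.MP_017654_co.NoPartitionOmegaPlus8
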